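import Pool.Agent.TH684.AM.Conv
import Pool.Agent.TH684.DI.OrAnd

/-!
# Distillation with bounded error of an `NP`-hard language puts `coNP` in `AM`

`InAM` is the class `AM = IP(2)`: two-message public-coin proofs with perfect completeness and
soundness error at most `1 / 2`. Polynomial time is Mathlib's `Turing.TM2ComputableInPolyTime`, for
functions on bit strings.

`RDistills (Val g A) B`: a probabilistic polynomial-time algorithm maps every nonempty list of strings
of length at most `n` to one string of length at most `q (n)`, `q` a polynomial, no matter how long the
list is, which is in `B` if and only if `g = 1` on the vector of the answers to `y ∈ A`, `y` in the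
list, with error probability at most `1 / 3` on both sides. Here `A` is any `NP`-hard language, `B` is
an arbitrary language, and `g` is any polynomial-time computable function with polynomially large
sensitivity, for example OR (for `RDistills (SomeIn A) B`), AND (`RDistills (AllIn A) B`), parity, or
majority.

Drucker (2012) proved that such an algorithm, for OR or AND, puts `NP` into `coNP/poly`. We show that
it puts `coNP` into `AM`, without advice; so the polynomial hierarchy collapses to its second level
(Boppana, Hastad, Zachos), not only to the third one.

Proof. Let `w` be a vector at which `g` has `2 t` sensitive entries, `t` of them with the same value
`e`. Reserve a block of two strings of a given list for each of these entries, and fill the other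
entries with fixed yes-instances and no-instances according to `w`. A selection `s ∈ {0,1} ^ t` of one
string from each block and random bits `ρ` for many repetitions of the algorithm determine a string
`F (s, ρ)` of fewer than `t - 1` bits. So some bit `s_j` cannot be recovered from `F (s, ρ)`: for the
values `v` with a large total number of preimages, there are at least `2 ^ k` preimages with `s_j = 0`
and at least `2 ^ k` ones with `s_j = 1`, for at least `2 ^ l` values `v`, with `l + k` equal to the
number of bits of `(s, ρ)` up to `O(log n)`. Merlin proves this by hashing: he sends short lists of
linear hash functions such that every target is hit. To get perfect completeness he may choose these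
lists after seeing Arthur's random bits, and Arthur sends so many independent targets that the union
bound over all lists is harmless. If all answers for the list were `e`, except for the answer number
`2 j`, then the values of `g` for `s_j = 0` and `s_j = 1` would differ, so one of two preimages of
the same `v` on different sides would be one of the exponentially rare wrong ones, which hit only few
targets. So Merlin can prove that this vector of answers is not the right one. The second ingredient
is the law of exclusion: if one vector of an explicit family can be excluded with public coins as
vector of the answers to polynomially many questions about one `NP`-hard set, then `coNP ⊆ AM`.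
-/

set_option autoImplicit false

namespace Pool.Agent.Results.MP_d404e6_lc.BoundedErrorDistillation

open Pool.Agent.NPC Pool.Agent.TH684.EX Pool.Agent.TH684.DI Pool.Agent.TH684.AM
open Pool.Agent.W920.NL (InAM)

/-- **Distillation with bounded error.** If some `NP`-hard language has an OR-distillation, an
AND-distillation, or a distillation of another sensitive function, with two-sided error `1 / 3`, into
any language, then `coNP` is contained in `AM`. Moreover, `coNP` is contained in `AM` if and only if
for some `NP`-hard language one vector of some strongly explicit family can be excluded with public
coins as the vector of the answers to polynomially many questions. -/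
theorem result :
    (∀ A B : Set (List Bool), NPHard A → (RDistills (SomeIn A) B ∨ RDistills (AllIn A) B) →
      ∀ S : Set (List Bool), InNP S → InAM Sᶜ) ∧
    (∀ g : List Bool → Bool, PolyTime (fun z => [g z]) → PolySens g →
      ∀ A B : Set (List Bool), NPHard A → RDistills (Val g A) B →
        ∀ S : Set (List Bool), InNP S → InAM Sᶜ) ∧
    List.TFAE
      [∀ S : Set (List Bool), InNP S → InAM Sᶜ,
        ∃ A L : Set (List Bool), NPHard A ∧ InP L ∧ AMFeasible (Exclude L A),
        ∃ A : Set (List Bool), NPHard A ∧ AMFeasible (NotOnly A),
        ∀ A : Set (List Bool), InNP A → AMFeasible (NotOnly A)] :=
  ⟨fun A _ hA h _ hS => h.elim
      (fun h => inAM_of_rdistills gor_poly (polySens_of_linSens gor_lin) hA (someIn_eq A ▸ h) hS)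
      (fun h => inAM_of_rdistills gand_poly (polySens_of_linSens gand_lin) hA (allIn_eq A ▸ h) hS),
    fun _ hg hs _ _ hA h _ hS => inAM_of_rdistills (poly_of_singleton hg) hs hA h hS,
    am_tfae⟩

end Pool.Agent.Results.MP_d404e6_lc.BoundedErrorDistillation
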