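import Pool.Agent.TH678.PC.Am

/-!
# How many strings of an oracle must be changed to decide whether `coNP ⊆ IP(2)`?

An adversary who knows the oracle `O` changes, for all large `n`, at most `g n` of the strings of
length at most `n`; the result is the oracle `A` (`Close g O A`). Two-message interactive proofs are
in the form of Arthur-Merlin games with two-sided error `1 / 3`.

* Every oracle `O` (for instance one with `P = PSPACE`) can be changed in this way such that `coNP`
  is not in `AM`, for every `g` tending to infinity, however slowly. If `g` does not tend to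
  infinity, then `A` and `O` differ in finitely many strings only.
* The converse needs many more changes: if for every `ε > 0` there are infinitely many `n` with
  `g n ≤ 2 ^ (n ^ ε)` then, for almost every `O`, relative to all the `A` even `coNP` is not in
  `NP/poly`, a class which contains `AM`. Otherwise every `O` can be changed such that
  `coNP ⊆ P`.
-/

set_option autoImplicit false

namespace Pool.Agent.Results.MP_d404e6_lc.ChangesOfEveryOracle

open Pool.Agent.NPC Pool.Agent.H620R2.Gauge Filter MeasureTheory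
open Pool.Agent.H628R3.RO (randomOracle)
open Pool.Agent.W900.CH (Close)
open Pool.Agent.W895.MA (IsAM)

theorem result (g : ℕ → ℝ) :
    (Tendsto g atTop atTop → ∀ O : Oracle, ∃ A, Close g O A ∧ ∃ L, IsNP A L ∧ ¬ IsAM A Lᶜ) ∧
    (¬ Tendsto g atTop atTop → ∀ O A : Oracle, Close g O A →
      {y : List Bool | A y ≠ O y}.Finite) ∧
    ((¬ ∀ ε : ℝ, 0 < ε → ∃ᶠ n : ℕ in atTop, g n ≤ 2 ^ (n : ℝ) ^ ε) → ∀ O : Oracle,
      ∃ A, Close g O A ∧ ∀ L, IsNP A L → IsP A Lᶜ) ∧
    ((∀ ε : ℝ, 0 < ε → ∃ᶠ n : ℕ in atTop, g n ≤ 2 ^ (n : ℝ) ^ ε) → ∀ᵐ O ∂randomOracle,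
      ∀ A, Close g O A → ∃ L, IsNP A L ∧ ¬ WithAdvice (IsNP A) Lᶜ) :=
  Pool.Agent.TH678.PC.mainAM g

end Pool.Agent.Results.MP_d404e6_lc.ChangesOfEveryOracle
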