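import Pool.Agent.TH39.NPred

/-!
# `coNP ⊆ AM` and prediction with public coins: the square-root law

`InNP` and `NPHard` (hardness under polynomial-time many-one reductions) are those of
`Pool.Agent.NPC.Defs`; `InAM` is the class of the sets with two-message public-coin proofs (one
message of random bits of the verifier, one reply of the prover) with perfect completeness and
soundness error at most `1 / 2`, which is the class `IP(2)` of the problem; polynomial time is
Mathlib's `Turing.TM2ComputableInPolyTime`.

A set `A` is `(δ, ε)`-predictable with public coins (`AMPredictable δ ε A`) if there is a
polynomial-time algorithm which sends random bits to a prover and computes an output from the reply,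
or rejects the reply, such that for every input and all random bits there is a reply which is not
rejected and, given a nonempty list of `m` questions about membership in `A`, each of length at most
`m ^ ε`, together with `O(log n)` bits of information about the list from any source, for at least
half of the random bits all outputs are good: an output is a list of predictions for some `s > 0` of
the questions such that the number of right predictions and the number of wrong predictions differ by
at least `m ^ δ * √ s` (random guessing has standard deviation `√ s`). It is fully `δ`-predictable
with public coins (`AMFullyPredictable δ A`) if the same holds with predictions for all questions, and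
for all nonempty lists of questions of any length.

The theorem: for `0 < δ ≤ 1 / 2` and `ε > 0` the following are equivalent.

* `coNP ⊆ AM`.
* Some `NP`-hard set is `(δ, ε)`-predictable with public coins.
* All sets in `NP` are fully `δ`-predictable with public coins.

For `δ ≤ 0` every set whatsoever is fully `δ`-predictable with public coins (without coins and
prover): the threshold is the square root of the number of predictions.

The main part is the theorem `am_law` of the starting file `Pool/Agent/W920/NL/LawAM2.lean`, which
had not been handed in; the part `δ ≤ 0` follows from `fully_of_nonpos` of
`Pool/Agent/W901/AT/Cov.lean`.
-/

set_option autoImplicit false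

namespace Pool.Agent.Results.MP_d404e6_lc.PredictionWithCoins

open Pool.Agent.NPC
open Pool.Agent.W920.NL (InAM AMPredictable AMFullyPredictable)

/-- **The square-root law for prediction with public coins.** -/
theorem result (δ ε : ℝ) :
    (0 < δ → δ ≤ 1 / 2 → 0 < ε → List.TFAE
      [∀ L : Set (List Bool), InNP L → InAM Lᶜ,
        ∃ A : Set (List Bool), NPHard A ∧ AMPredictable δ ε A,
        ∀ A : Set (List Bool), InNP A → AMFullyPredictable δ A]) ∧
    (δ ≤ 0 → ∀ A : Set (List Bool), AMFullyPredictable δ A) :=
  ⟨fun h1 h2 h3 => Pool.Agent.W920.NL.am_law h1 h2 h3,
    fun h A => Pool.Agent.TH39.NPred.amfully_of_nfully
      (Pool.Agent.TH39.NPred.nfully_of_fully (Pool.Agent.W901.AT.fully_of_nonpos h A))⟩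

end Pool.Agent.Results.MP_d404e6_lc.PredictionWithCoins
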